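import Pool.Agent.Helper884_ChainCount.Spider

/-!
# Asymptotic estimates
-/

set_option autoImplicit false

namespace Pool.Agent.Helper884_ChainCount

open Finset Filter

/-- From an inequality between binary logarithms to one between natural numbers. -/
lemma lt_of_logb {M K r k N R : ℕ} (hM : 1 ≤ M) (hK : 1 ≤ K) (hr : 1 ≤ r)
    (h : (R : ℝ) * Real.logb 2 M + (R : ℝ) ^ 2 * Real.logb 2 K + N < k * Real.logb 2 r) :
    M ^ R * (K ^ (R ^ 2) * 2 ^ N) < r ^ k := by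
  by_contra hle
  push Not at hle
  have hcast : ((r : ℝ) ^ k) ≤ (M : ℝ) ^ R * ((K : ℝ) ^ (R ^ 2) * 2 ^ N) := by exact_mod_cast hle
  have hM' : (0 : ℝ) < M := by exact_mod_cast hM
  have hK' : (0 : ℝ) < K := by exact_mod_cast hK
  have hr' : (0 : ℝ) < r := by exact_mod_cast hr
  have h1 : Real.logb 2 ((r : ℝ) ^ k) ≤ Real.logb 2 ((M : ℝ) ^ R * ((K : ℝ) ^ (R ^ 2) * 2 ^ N)) :=
    Real.logb_le_logb_of_le (by norm_num) (by positivity) hcast
  rw [Real.logb_pow, Real.logb_mul (by positivity) (by positivity), Real.logb_pow,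
    Real.logb_mul (by positivity) (by positivity), Real.logb_pow, Real.logb_pow,
    Real.logb_self_eq_one (by norm_num)] at h1
  push_cast at h1
  linarith

/-- Polynomial-in-`log` losses are negligible. -/
lemma asym_poly (θ C A : ℝ) (hθ : 0 < θ) (hθ2 : 2 * θ < 1) (hC : 1 < C * θ) (hA : 0 ≤ A) :
    ∀ᶠ n : ℕ in atTop, ∀ K : ℕ, 1 ≤ K →
      Real.logb 2 K ≤ A * (Real.logb 2 (4 * (((n + ⌊C * n / Real.logb 2 n⌋₊ : ℕ) : ℝ) + 2))) ^ 2 →
      (n + ⌊C * n / Real.logb 2 n⌋₊ + 1) ^ (⌈(n : ℝ) ^ θ⌉₊ + 1) *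
        (K ^ ((⌈(n : ℝ) ^ θ⌉₊ + 1) ^ 2) * 2 ^ (n + ⌊C * n / Real.logb 2 n⌋₊))
        < ⌈(n : ℝ) ^ θ⌉₊ ^ ⌊C * n / Real.logb 2 n⌋₊ := by
  have hCpos : 0 < C := by
    by_contra h
    push Not at h
    nlinarith
  set g := C * θ - 1 with hg
  have hgpos : 0 < g := by linarith
  set c := (g / 2) / (6 + 36 * A + θ + 1) with hc
  have hcpos : 0 < c := by positivity
  have hcmul : c * (6 + 36 * A + θ + 1) = g / 2 := by
    rw [hc]; field_simp
  have hlog2 : 0 < Real.log 2 := Real.log_pos (by norm_num)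
  -- L tends to infinity
  have hL : ∀ᶠ n : ℕ in atTop, max (max 4 C) (5 * C / g) ≤ Real.logb 2 (n : ℝ) := by
    have h1 : Tendsto (fun n : ℕ => Real.logb 2 (n : ℝ)) atTop atTop :=
      (Real.tendsto_logb_atTop (by norm_num)).comp tendsto_natCast_atTop_atTop
    exact h1.eventually_ge_atTop _
  have hL2 : ∀ᶠ n : ℕ in atTop, (Real.logb 2 (n : ℝ)) ^ 2 ≤ c * (n : ℝ) ^ (1 - 2 * θ) := by
    have h1 := isLittleO_log_rpow_rpow_atTop (s := 1 - 2 * θ) 2 (by linarith)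
    have h2 := h1.def (c := c * Real.log 2 ^ 2) (by positivity)
    have h3 := tendsto_natCast_atTop_atTop (R := ℝ) |>.eventually h2
    filter_upwards [h3, eventually_ge_atTop 2] with n hn hn2
    have hn1 : (1 : ℝ) ≤ n := by exact_mod_cast (by omega : 1 ≤ n)
    have hlogn : 0 ≤ Real.log n := Real.log_nonneg hn1
    rw [Real.norm_of_nonneg (by positivity), Real.norm_of_nonneg (by positivity)] at hn
    have h4 : Real.log (n : ℝ) ^ (2 : ℝ) = Real.log (n : ℝ) ^ 2 := by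
      rw [← Real.rpow_natCast]; norm_num
    rw [h4] at hn
    rw [Real.logb, div_pow, div_le_iff₀ (by positivity)]
    linarith
  filter_upwards [hL, hL2, eventually_ge_atTop 2] with n hn1 hn2 hn3 K hK hKle
  set L := Real.logb 2 (n : ℝ) with hLdef
  set k := ⌊C * n / L⌋₊ with hk
  set r := ⌈(n : ℝ) ^ θ⌉₊ with hr
  have hL4 : 4 ≤ L := (le_max_left _ _).trans ((le_max_left _ _).trans hn1)
  have hLC : C ≤ L := (le_max_right _ _).trans ((le_max_left _ _).trans hn1)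
  have hLg : 5 * C / g ≤ L := (le_max_right _ _).trans hn1
  have hLpos : 0 < L := by linarith
  have hn : (2 : ℝ) ≤ n := by exact_mod_cast hn3
  have hnpos : (0 : ℝ) < n := by linarith
  have hkle : (k : ℝ) ≤ C * n / L := Nat.floor_le (by positivity)
  have hklt : C * n / L < k + 1 := Nat.lt_floor_add_one _
  have hkn : (k : ℝ) ≤ n := by
    refine hkle.trans ?_
    rw [div_le_iff₀ hLpos]
    nlinarith
  have hntheta : (1 : ℝ) ≤ (n : ℝ) ^ θ := Real.one_le_rpow (by linarith) hθ.le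
  have hrge : (n : ℝ) ^ θ ≤ r := Nat.le_ceil _
  have hrle : (r : ℝ) < (n : ℝ) ^ θ + 1 := Nat.ceil_lt_add_one (by positivity)
  have hr1 : 1 ≤ r := by
    have : (0 : ℝ) < r := by linarith
    exact_mod_cast this
  -- the size of the logarithms
  have hLam : Real.logb 2 (4 * (((n + k : ℕ) : ℝ) + 2)) ≤ 2 * L := by
    have h1 : 4 * (((n + k : ℕ) : ℝ) + 2) ≤ 16 * n := by
      push_cast
      linarith
    have h2 : Real.logb 2 (4 * (((n + k : ℕ) : ℝ) + 2)) ≤ Real.logb 2 (16 * n) :=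
      Real.logb_le_logb_of_le (by norm_num) (by positivity) h1
    have h3 : Real.logb 2 (16 * (n : ℝ)) = 4 + L := by
      rw [Real.logb_mul (by norm_num) (by positivity)]
      have : Real.logb 2 16 = 4 := by
        rw [show (16 : ℝ) = 2 ^ (4 : ℝ) by norm_num]
        exact Real.logb_rpow (by norm_num) (by norm_num)
      rw [this]
    linarith
  have hLam0 : 0 ≤ Real.logb 2 (4 * (((n + k : ℕ) : ℝ) + 2)) := by
    apply Real.logb_nonneg (by norm_num)
    push_cast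
    have : (0 : ℝ) ≤ k := Nat.cast_nonneg _
    linarith
  have hLK : Real.logb 2 K ≤ 4 * A * L ^ 2 := by
    refine hKle.trans ?_
    have h1 : (Real.logb 2 (4 * (((n + k : ℕ) : ℝ) + 2))) ^ 2 ≤ (2 * L) ^ 2 :=
      pow_le_pow_left₀ hLam0 hLam 2
    nlinarith
  have hLM : Real.logb 2 ((n + k + 1 : ℕ) : ℝ) ≤ 2 * L := by
    refine le_trans (Real.logb_le_logb_of_le (by norm_num) (by positivity) ?_) hLam
    push_cast
    have : (0 : ℝ) ≤ k := Nat.cast_nonneg _
    linarith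
  have hLr : θ * L ≤ Real.logb 2 (r : ℝ) := by
    have h1 : Real.logb 2 ((n : ℝ) ^ θ) ≤ Real.logb 2 (r : ℝ) :=
      Real.logb_le_logb_of_le (by norm_num) (by positivity) hrge
    rwa [Real.logb_rpow_eq_mul_logb_of_pos hnpos] at h1
  apply lt_of_logb (by omega) hK hr1
  -- main estimate
  set P := (n : ℝ) ^ θ with hP
  have hPP : P ^ 2 * (n : ℝ) ^ (1 - 2 * θ) = n := by
    rw [hP, ← Real.rpow_natCast, ← Real.rpow_mul hnpos.le, ← Real.rpow_add hnpos]
    have : θ * ((2 : ℕ) : ℝ) + (1 - 2 * θ) = 1 := by push_cast; ring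
    rw [this, Real.rpow_one]
  have hPL : P ^ 2 * L ^ 2 ≤ c * n := by
    calc P ^ 2 * L ^ 2 ≤ P ^ 2 * (c * (n : ℝ) ^ (1 - 2 * θ)) :=
          mul_le_mul_of_nonneg_left hn2 (by positivity)
      _ = c * (P ^ 2 * (n : ℝ) ^ (1 - 2 * θ)) := by ring
      _ = c * n := by rw [hPP]
  have hR : ((r + 1 : ℕ) : ℝ) ≤ 3 * P := by push_cast; linarith
  have hR0 : (0 : ℝ) ≤ ((r + 1 : ℕ) : ℝ) := Nat.cast_nonneg _
  have t1 : ((r + 1 : ℕ) : ℝ) * Real.logb 2 ((n + k + 1 : ℕ) : ℝ) ≤ 6 * (c * n) := by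
    have h0 : 0 ≤ Real.logb 2 ((n + k + 1 : ℕ) : ℝ) := by
      apply Real.logb_nonneg (by norm_num)
      exact_mod_cast (by omega : 1 ≤ n + k + 1)
    calc ((r + 1 : ℕ) : ℝ) * Real.logb 2 ((n + k + 1 : ℕ) : ℝ) ≤ (3 * P) * (2 * L) :=
          mul_le_mul hR hLM h0 (by positivity)
      _ = 6 * (P * L) := by ring
      _ ≤ 6 * (P ^ 2 * L ^ 2) := by
          have h1 : 1 ≤ P * L := by nlinarith
          nlinarith
      _ ≤ 6 * (c * n) := by linarith
  have t2 : ((r + 1 : ℕ) : ℝ) ^ 2 * Real.logb 2 K ≤ 36 * A * (c * n) := by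
    have h0 : 0 ≤ Real.logb 2 (K : ℝ) := by
      apply Real.logb_nonneg (by norm_num)
      exact_mod_cast hK
    calc ((r + 1 : ℕ) : ℝ) ^ 2 * Real.logb 2 K ≤ (3 * P) ^ 2 * (4 * A * L ^ 2) :=
          mul_le_mul (pow_le_pow_left₀ hR0 hR 2) hLK h0 (by positivity)
      _ = 36 * A * (P ^ 2 * L ^ 2) := by ring
      _ ≤ 36 * A * (c * n) := mul_le_mul_of_nonneg_left hPL (by positivity)
  have t3 : C * n / L ≤ g / 5 * n := by
    rw [div_le_iff₀ hLpos]
    have h1 : 5 * C ≤ L * g := by rwa [div_le_iff₀ hgpos] at hLg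
    nlinarith
  have t4 : θ * L ≤ θ * (c * n) := by
    apply mul_le_mul_of_nonneg_left _ hθ.le
    calc L ≤ 1 * L ^ 2 := by nlinarith
      _ ≤ P ^ 2 * L ^ 2 := by
          apply mul_le_mul_of_nonneg_right _ (by positivity)
          nlinarith
      _ ≤ c * n := hPL
  have t5 : (C * n / L - 1) * (θ * L) ≤ k * Real.logb 2 (r : ℝ) := by
    have h1 : C * n / L - 1 ≤ k := by linarith
    have h2 : 0 ≤ θ * L := by positivity
    calc (C * n / L - 1) * (θ * L) ≤ k * (θ * L) := mul_le_mul_of_nonneg_right h1 h2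
      _ ≤ k * Real.logb 2 (r : ℝ) := mul_le_mul_of_nonneg_left hLr (Nat.cast_nonneg _)
  have t6 : (C * n / L - 1) * (θ * L) = C * θ * n - θ * L := by
    field_simp
  have t7 : ((n + k : ℕ) : ℝ) = n + k := by push_cast; ring
  rw [t7]
  rw [t6] at t5
  have t8 : 6 * (c * n) + 36 * A * (c * n) + θ * (c * n) ≤ g / 2 * n := by
    have : (6 + 36 * A + θ) * c ≤ g / 2 := by nlinarith
    nlinarith
  have t9 : 0 < g * n := by positivity
  have t10 : C * θ * n = n + g * n := by rw [hg]; ring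
  nlinarith [t1, t2, t3, t4, t5, t8, t9, t10, hkle]

lemma Kc_bound (N m : ℕ) (hN : 1 ≤ N) (hm : 1 ≤ m) :
    1 ≤ (N + 1) * Kc N m ∧ Real.logb 2 (((N + 1) * Kc N m : ℕ) : ℝ) ≤
      (3 * m + 2) * (Real.logb 2 (4 * ((N : ℝ) + 2))) ^ 2 := by
  set Λ := Real.logb 2 (4 * ((N : ℝ) + 2)) with hΛ
  have hN' : (1 : ℝ) ≤ N := by exact_mod_cast hN
  have hm' : (1 : ℝ) ≤ m := by exact_mod_cast hm
  have hΛ2 : 2 ≤ Λ := by
    have h1 : Real.logb 2 (2 ^ (2 : ℝ)) ≤ Λ := by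
      apply Real.logb_le_logb_of_le (by norm_num) (by positivity)
      norm_num
      linarith
    rwa [Real.logb_rpow (by norm_num) (by norm_num)] at h1
  have hKpos : 1 ≤ Kc N m := by
    unfold Kc
    have h1 : 1 ≤ (4 * N) ^ (m * (Nat.log 2 (N + 2) + 1)) := Nat.one_le_pow _ _ (by omega)
    have h2 : 1 ≤ 2 * (4 * N) ^ (m * (Nat.log 2 (N + 2) + 1)) := by omega
    exact Nat.one_le_iff_ne_zero.2 (by positivity)
  refine ⟨Nat.one_le_iff_ne_zero.2 (by positivity), ?_⟩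
  have hlogN : (Nat.log 2 (N + 2) : ℝ) + 1 ≤ Λ := by
    have h1 : (Nat.log 2 (N + 2) : ℝ) ≤ Real.logb 2 ((N + 2 : ℕ) : ℝ) := by
      rw [Real.le_logb_iff_rpow_le (by norm_num) (by positivity), Real.rpow_natCast]
      exact_mod_cast Nat.pow_log_le_self 2 (by omega)
    have h2 : Λ = 2 + Real.logb 2 ((N : ℝ) + 2) := by
      rw [hΛ, Real.logb_mul (by norm_num) (by positivity)]
      have : Real.logb 2 4 = 2 := by
        rw [show (4 : ℝ) = 2 ^ (2 : ℝ) by norm_num]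
        exact Real.logb_rpow (by norm_num) (by norm_num)
      rw [this]
    push_cast at h1
    linarith
  have h4N : Real.logb 2 (4 * (N : ℝ)) ≤ Λ := by
    apply Real.logb_le_logb_of_le (by norm_num) (by positivity)
    linarith
  have h4N0 : 0 ≤ Real.logb 2 (4 * (N : ℝ)) := Real.logb_nonneg (by norm_num) (by linarith)
  have hN1 : Real.logb 2 ((N : ℝ) + 1) ≤ Λ := by
    apply Real.logb_le_logb_of_le (by norm_num) (by positivity)
    linarith
  have h2m : Real.logb 2 (2 * (m : ℝ)) ≤ 2 * m := by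
    rw [Real.logb_le_iff_le_rpow (by norm_num) (by positivity)]
    have h1 : 2 * m ≤ 2 ^ (2 * m) := (Nat.lt_two_pow_self).le
    have h2 : ((2 * m : ℕ) : ℝ) ≤ ((2 ^ (2 * m) : ℕ) : ℝ) := by exact_mod_cast h1
    push_cast at h2
    have h3 : (2 : ℝ) ^ (2 * (m : ℝ)) = 2 ^ (2 * m) := by
      rw [← Real.rpow_natCast]; push_cast; rfl
    rw [h3]
    exact h2
  have hexp : Real.logb 2 (((N + 1) * Kc N m : ℕ) : ℝ) =
      Real.logb 2 ((N : ℝ) + 1) + (Real.logb 2 (2 * (m : ℝ)) +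
        (1 + ((m : ℝ) * ((Nat.log 2 (N + 2) : ℝ) + 1)) * Real.logb 2 (4 * (N : ℝ)))) := by
    have e0 : ∀ q : ℕ, Real.logb 2 (2 * (4 * (N : ℝ)) ^ q) = 1 + q * Real.logb 2 (4 * (N : ℝ)) := by
      intro q
      rw [Real.logb_mul (by norm_num) (by positivity), Real.logb_pow,
        Real.logb_self_eq_one (by norm_num)]
    unfold Kc
    push_cast
    rw [Real.logb_mul (x := (N : ℝ) + 1) (by positivity) (by positivity),
      Real.logb_mul (x := 2 * (m : ℝ)) (by positivity) (by positivity), e0]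
    push_cast
    ring
  rw [hexp]
  have hprod : ((m : ℝ) * ((Nat.log 2 (N + 2) : ℝ) + 1)) * Real.logb 2 (4 * (N : ℝ))
      ≤ (m * Λ) * Λ := by
    apply mul_le_mul _ h4N h4N0 (by positivity)
    exact mul_le_mul_of_nonneg_left hlogN (by positivity)
  have e1 : Λ ≤ Λ ^ 2 := by nlinarith
  have e2 : 1 ≤ Λ ^ 2 := by nlinarith
  nlinarith

end Pool.Agent.Helper884_ChainCount
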