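import Mathlib

/-!
# Counting chains in the Boolean lattice by a hull encoding

Main result `card_le_of_trans`: a family of distinct weak chains `v 0 ⊆ … ⊆ v r` of subsets of a finite
set such that every crossing relation `v_a s ⊆ v_b t ∧ v_b s ⊆ v_a t` is transitive has at most
`2 ^ N` members.  `chain_of_no_red`: the greedy chain lemma for colourings of a Boolean lattice.
`main_count`: the counting consequence for colourings without a red Boolean lattice.
-/

set_option autoImplicit false

namespace Pool.Agent.Helper884_ChainCount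

open Finset

section Hull

variable {ι α : Type*}

/-- The crossing relation of two chains at the levels `s`, `t`. -/
def Rel (v : ι → ℕ → Set α) (s t : ℕ) (a b : ι) : Prop := v a s ⊆ v b t ∧ v b s ⊆ v a t

/-- Union of the `s`-th members of the chains crossing the chain `a` at the levels `s`, `t`. -/
def V (v : ι → ℕ → Set α) (s t : ℕ) (a : ι) : Set α := {x | ∃ b, Rel v s t a b ∧ x ∈ v b s}

/-- Monotone regularisation of `V`. -/
def VT (v : ι → ℕ → Set α) (r s t : ℕ) (a : ι) : Set α :=
  {x | ∃ s', s' ≤ s ∧ ∀ t', t ≤ t' → t' ≤ r → x ∈ V v s' t' a}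

/-- The separators between consecutive levels. -/
def W (v : ι → ℕ → Set α) (r : ℕ) : ℕ → ι → Set α
  | 0, _ => ∅
  | (s + 1), a => VT v r s (s + 1) a

/-- The code of a chain. -/
def Phi (v : ι → ℕ → Set α) (r : ℕ) (a : ι) : Set α := {x | ∃ i, i ≤ r ∧ x ∈ v a i ∧ x ∉ W v r i a}

variable (v : ι → ℕ → Set α) (r : ℕ)

lemma Rel.symm' {v : ι → ℕ → Set α} {s t : ℕ} {a b : ι} (h : Rel v s t a b) : Rel v s t b a :=
  ⟨h.2, h.1⟩

lemma subset_VT (hmono : ∀ a, Monotone (v a)) {s t : ℕ} (hst : s < t) (a : ι) :
    v a s ⊆ VT v r s t a := by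
  intro x hx
  refine ⟨s, le_rfl, fun t' ht' _ => ⟨a, ⟨hmono a (by omega), hmono a (by omega)⟩, hx⟩⟩

lemma VT_subset {s t : ℕ} (htr : t ≤ r) (a : ι) :
    VT v r s t a ⊆ v a t := by
  rintro x ⟨s', hs', h⟩
  obtain ⟨b, hb, hx⟩ := h t le_rfl htr
  exact hb.2 hx

lemma VT_mono {s₁ s₂ t₁ t₂ : ℕ} (hs : s₁ ≤ s₂) (ht : t₁ ≤ t₂) (a : ι) :
    VT v r s₁ t₁ a ⊆ VT v r s₂ t₂ a := by
  rintro x ⟨s', hs', h⟩
  exact ⟨s', by omega, fun t' ht' hr => h t' (by omega) hr⟩

lemma W_subset {s : ℕ} (hs : s ≤ r) (a : ι) :
    W v r s a ⊆ v a s := by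
  cases s with
  | zero => intro x hx; exact absurd hx (by simp [W])
  | succ s => exact VT_subset v r hs a

lemma subset_Phi_W {s : ℕ} (hs : s ≤ r) (a : ι) :
    v a s ⊆ Phi v r a ∪ W v r s a := by
  intro x hx
  by_cases h : x ∈ W v r s a
  · exact Or.inr h
  · exact Or.inl ⟨s, hs, hx, h⟩

lemma Phi_subset (hmono : ∀ a, Monotone (v a)) (a : ι) : Phi v r a ⊆ v a r := by
  rintro x ⟨i, hi, hx, _⟩
  exact hmono a hi hx

lemma Phi_inter_VT (hmono : ∀ a, Monotone (v a)) {s t : ℕ} (hst : s ≤ t) (a : ι) {x : α}
    (hx : x ∈ Phi v r a) (hx' : x ∈ VT v r s (t + 1) a) : x ∈ v a t := by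
  obtain ⟨i, hi, hxi, hxW⟩ := hx
  rcases Nat.lt_or_ge t i with h | h
  · exfalso
    obtain ⟨j, rfl⟩ : ∃ j, i = j + 1 := ⟨i - 1, by omega⟩
    exact hxW (VT_mono v r (by omega) (by omega) a hx')
  · exact hmono a h hxi

lemma V_congr {s t : ℕ} {a b : ι}
    (htrans : ∀ a b c, Rel v s t a b → Rel v s t b c → Rel v s t a c)
    (h : Rel v s t a b) : V v s t a = V v s t b := by
  ext x
  constructor
  · rintro ⟨d, hd, hx⟩
    exact ⟨d, htrans b a d h.symm' hd, hx⟩
  · rintro ⟨d, hd, hx⟩
    exact ⟨d, htrans a b d h hd, hx⟩

lemma all_rel (hmono : ∀ a, Monotone (v a))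
    (htrans : ∀ s t, s < t → t ≤ r → ∀ a b c, Rel v s t a b → Rel v s t b c → Rel v s t a c)
    {a b : ι} (hPhi : Phi v r a = Phi v r b) :
    ∀ s, ∀ t, s < t → t ≤ r → Rel v s t a b := by
  intro s
  induction s using Nat.strong_induction_on with
  | _ s ihs =>
    have hV : ∀ s', s' < s → ∀ t, s' < t → t ≤ r → V v s' t a = V v s' t b := by
      intro s' hs' t ht htr
      exact V_congr v (htrans s' t ht htr) (ihs s' hs' t ht htr)
    have hW : W v r s a = W v r s b := by
      cases s with
      | zero => rfl
      | succ s =>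
        ext x
        constructor
        · rintro ⟨s', hs', h⟩
          refine ⟨s', hs', fun t' ht' hr => ?_⟩
          rw [← hV s' (by omega) t' (by omega) hr]; exact h t' ht' hr
        · rintro ⟨s', hs', h⟩
          refine ⟨s', hs', fun t' ht' hr => ?_⟩
          rw [hV s' (by omega) t' (by omega) hr]; exact h t' ht' hr
    -- downward induction
    have key : ∀ j, ∀ t, s < t → t ≤ r → r - t ≤ j → Rel v s t a b := by
      intro j
      induction j with
      | zero =>
        intro t hst htr hj
        have htr' : t = r := by omega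
        subst htr'
        constructor
        · intro x hx
          rcases subset_Phi_W v t (by omega : s ≤ t) a hx with h | h
          · rw [hPhi] at h; exact Phi_subset v t hmono b h
          · rw [hW] at h
            exact hmono b (by omega) (W_subset v t (by omega : s ≤ t) b h)
        · intro x hx
          rcases subset_Phi_W v t (by omega : s ≤ t) b hx with h | h
          · rw [← hPhi] at h; exact Phi_subset v t hmono a h
          · rw [← hW] at h
            exact hmono a (by omega) (W_subset v t (by omega : s ≤ t) a h)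
      | succ j ihj =>
        intro t hst htr hj
        rcases Nat.lt_or_ge t r with htr' | htr'
        · have hVs : ∀ t', t + 1 ≤ t' → t' ≤ r → V v s t' a = V v s t' b := by
            intro t' ht' hr
            exact V_congr v (htrans s t' (by omega) hr) (ihj t' (by omega) hr (by omega))
          have hVT : VT v r s (t + 1) a = VT v r s (t + 1) b := by
            ext x
            constructor
            · rintro ⟨s', hs', h⟩
              refine ⟨s', hs', fun t' ht' hr => ?_⟩
              rcases Nat.lt_or_ge s' s with hlt | hge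
              · rw [← hV s' hlt t' (by omega) hr]; exact h t' ht' hr
              · have : s' = s := by omega
                subst this
                rw [← hVs t' ht' hr]; exact h t' ht' hr
            · rintro ⟨s', hs', h⟩
              refine ⟨s', hs', fun t' ht' hr => ?_⟩
              rcases Nat.lt_or_ge s' s with hlt | hge
              · rw [hV s' hlt t' (by omega) hr]; exact h t' ht' hr
              · have : s' = s := by omega
                subst this
                rw [hVs t' ht' hr]; exact h t' ht' hr
          constructor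
          · intro x hx
            have hx2 : x ∈ VT v r s (t + 1) a := subset_VT v r hmono (by omega) a hx
            rcases subset_Phi_W v r (by omega : s ≤ r) a hx with h | h
            · rw [hPhi] at h
              rw [hVT] at hx2
              exact Phi_inter_VT v r hmono (by omega) b h hx2
            · rw [hW] at h
              exact hmono b (by omega) (W_subset v r (by omega : s ≤ r) b h)
          · intro x hx
            have hx2 : x ∈ VT v r s (t + 1) b := subset_VT v r hmono (by omega) b hx
            rcases subset_Phi_W v r (by omega : s ≤ r) b hx with h | h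
            · rw [← hPhi] at h
              rw [← hVT] at hx2
              exact Phi_inter_VT v r hmono (by omega) a h hx2
            · rw [← hW] at h
              exact hmono a (by omega) (W_subset v r (by omega : s ≤ r) a h)
        · exact ihj t hst htr (by omega)
    intro t hst htr
    exact key (r - t) t hst htr le_rfl

lemma level_subset (hmono : ∀ a, Monotone (v a))
    (htrans : ∀ s t, s < t → t ≤ r → ∀ a b c, Rel v s t a b → Rel v s t b c → Rel v s t a c)
    {a b : ι} (hPhi : Phi v r a = Phi v r b) {s : ℕ} (hs : s ≤ r) : v a s ⊆ v b s := by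
  have hrel := all_rel v r hmono htrans hPhi
  have hV : ∀ s t, s < t → t ≤ r → V v s t a = V v s t b := by
    intro s t ht htr
    exact V_congr v (htrans s t ht htr) (hrel s t ht htr)
  have hVTeq : ∀ s t, s < t → VT v r s t a ⊆ VT v r s t b := by
    rintro s t hst x ⟨s', hs', h⟩
    refine ⟨s', hs', fun t' ht' hr => ?_⟩
    rw [← hV s' t' (by omega) hr]; exact h t' ht' hr
  have hW : W v r s a ⊆ W v r s b := by
    cases s with
    | zero => exact le_rfl
    | succ s => exact hVTeq s (s + 1) (by omega)
  intro x hx
  rcases subset_Phi_W v r hs a hx with h | h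
  · rw [hPhi] at h
    rcases Nat.lt_or_ge s r with hlt | hge
    · have hx2 := hVTeq s (s + 1) (by omega) (subset_VT v r hmono (by omega) a hx)
      exact Phi_inter_VT v r hmono le_rfl b h hx2
    · have : s = r := by omega
      subst this
      exact Phi_subset v s hmono b h
  · exact W_subset v r hs b (hW h)

/-- **Hull encoding.** A family of distinct weak chains all of whose crossing relations are transitive
has at most `2 ^ N` members. -/
theorem card_le_of_trans [Fintype ι] [Fintype α] (hmono : ∀ a, Monotone (v a))
    (hinj : ∀ a b, (∀ i, i ≤ r → v a i = v b i) → a = b)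
    (htrans : ∀ s t, s < t → t ≤ r → ∀ a b c, Rel v s t a b → Rel v s t b c → Rel v s t a c) :
    Fintype.card ι ≤ 2 ^ Fintype.card α := by
  classical
  have h : Function.Injective (Phi v r) := by
    intro a b hab
    apply hinj
    intro i hi
    exact Set.Subset.antisymm (level_subset v r hmono htrans hab hi)
      (level_subset v r hmono htrans hab.symm hi)
  have := Fintype.card_le_of_injective _ h
  simpa using this

/-- Passing to a subfamily on which finitely many relations become transitive. -/
theorem exists_trans_subfamily {κ : Type*} [DecidableEq κ] (R : κ → ι → ι → Prop) (K : ℕ)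
    (F : Finset ι) (Ps : Finset κ)
    (hpair : ∀ p ∈ Ps, ∀ F' ⊆ F, ∃ G ⊆ F', F'.card ≤ K * G.card ∧
      ∀ a ∈ G, ∀ b ∈ G, ∀ c ∈ G, R p a b → R p b c → R p a c) :
    ∃ G ⊆ F, F.card ≤ K ^ Ps.card * G.card ∧
      ∀ p ∈ Ps, ∀ a ∈ G, ∀ b ∈ G, ∀ c ∈ G, R p a b → R p b c → R p a c := by
  induction Ps using Finset.induction_on with
  | empty => exact ⟨F, Subset.refl _, by simp, by simp⟩
  | insert p Ps hp ih =>
    obtain ⟨G, hGF, hcard, htr⟩ := ih (fun q hq => hpair q (mem_insert_of_mem hq))
    obtain ⟨G', hG', hcard', htr'⟩ := hpair p (mem_insert_self _ _) G hGF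
    refine ⟨G', hG'.trans hGF, ?_, ?_⟩
    · rw [card_insert_of_notMem hp, pow_succ]
      calc F.card ≤ K ^ Ps.card * G.card := hcard
        _ ≤ K ^ Ps.card * (K * G'.card) := Nat.mul_le_mul_left _ hcard'
        _ = K ^ Ps.card * K * G'.card := by ring
    · intro q hq a ha b hb c hc
      rcases mem_insert.1 hq with rfl | hq
      · exact htr' a ha b hb c hc
      · exact htr q hq a (hG' ha) b (hG' hb) c (hG' hc)

end Hull

section Chain

variable {N : ℕ}

/-- `Blue c T j S`: there are `S_0 ⊆ … ⊆ S_{j-1} ⊆ S` inside `X` with all `S_i ∪ T_i` blue. -/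
def Blue (c : Finset (Fin N) → Bool) (X : Finset (Fin N)) (T : ℕ → Finset (Fin N)) :
    ℕ → Finset (Fin N) → Prop
  | 0, _ => True
  | (j + 1), S => ∃ S', S' ⊆ S ∧ S' ⊆ X ∧ Blue c X T j S' ∧ c (S' ∪ T j) = true

variable {c : Finset (Fin N) → Bool} {X : Finset (Fin N)} {T : ℕ → Finset (Fin N)}

lemma Blue.mono {j : ℕ} {S S' : Finset (Fin N)} (h : Blue c X T j S) (hS : S ⊆ S') :
    Blue c X T j S' := by
  cases j with
  | zero => trivial
  | succ j =>
    obtain ⟨S₀, h1, h2, h3, h4⟩ := h
    exact ⟨S₀, h1.trans hS, h2, h3, h4⟩

lemma Blue.pred {j : ℕ} {S : Finset (Fin N)} (h : Blue c X T (j + 1) S) : Blue c X T j S := by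
  obtain ⟨S₀, h1, h2, h3, h4⟩ := h
  exact h3.mono h1

lemma Blue.exists_chain {j : ℕ} {S : Finset (Fin N)} (h : Blue c X T j S) :
    ∃ U : ℕ → Finset (Fin N), (∀ i i', i ≤ i' → i' < j → U i ⊆ U i') ∧ (∀ i, i < j → U i ⊆ S) ∧
      (∀ i, i < j → U i ⊆ X) ∧ ∀ i, i < j → c (U i ∪ T i) = true := by
  induction j generalizing S with
  | zero => exact ⟨fun _ => ∅, by intros; omega, by intros; omega, by intros; omega,
      by intros; omega⟩
  | succ j ih =>
    obtain ⟨S₀, h1, h2, h3, h4⟩ := h
    obtain ⟨U, hU1, hU2, hU3, hU4⟩ := ih h3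
    refine ⟨fun i => if i < j then U i else S₀, ?_, ?_, ?_, ?_⟩
    · intro i i' hii hi'
      by_cases h' : i' < j
      · have : i < j := by omega
        simp only [h', this, if_true]
        exact hU1 i i' hii h'
      · by_cases h'' : i < j
        · simp only [h', h'', if_true, if_false]
          exact hU2 i h''
        · simp only [h', h'', if_false]
          exact Subset.refl _
    · intro i hi
      by_cases h' : i < j
      · simp only [h', if_true]; exact (hU2 i h').trans h1
      · simp only [h', if_false]; exact h1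
    · intro i hi
      by_cases h' : i < j
      · simp only [h', if_true]; exact hU3 i h'
      · simp only [h', if_false]; exact h2
    · intro i hi
      by_cases h' : i < j
      · simp only [h', if_true]; exact hU4 i h'
      · have : i = j := by omega
        subst this
        simp only [h', if_false]; exact h4

open Classical in
/-- **Greedy chain lemma.** If the colouring has no red copy of the Boolean lattice on `n` points,
then over every increasing sequence `T_0 ⊆ … ⊆ T_r` outside an `n`-set `X` there is a blue chain. -/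
theorem chain_of_no_red {n : ℕ} (c : Finset (Fin N) → Bool) (e : Fin n ↪ Fin N)
    (hred : ¬ ∃ g : Finset (Fin n) ↪o Finset (Fin N), ∀ x, c (g x) = false)
    (T : ℕ → Finset (Fin N)) (hT : Monotone T) (r : ℕ)
    (hTX : ∀ i, Disjoint (T i) (univ.map e)) :
    ∃ U : ℕ → Finset (Fin N), Monotone U ∧ (∀ i, U i ⊆ univ.map e) ∧
      ∀ i, i ≤ r → c (U i ∪ T i) = true := by
  set X : Finset (Fin N) := univ.map e with hX
  by_cases hfull : Blue c X T (r + 1) X
  · obtain ⟨U, hU1, hU2, hU3, hU4⟩ := hfull.exists_chain
    refine ⟨fun i => U (min i r), ?_, ?_, ?_⟩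
    · intro i i' h
      exact hU1 _ _ (by omega) (by omega)
    · intro i
      exact hU3 _ (by omega)
    · intro i hi
      have : min i r = i := by omega
      simp only [this]
      exact hU4 i (by omega)
  · exfalso
    apply hred
    have hnot : ∀ S, S ⊆ X → ¬ Blue c X T (r + 1) S := fun S hS h => hfull (h.mono hS)
    let h : Finset (Fin N) → ℕ := fun S => Nat.findGreatest (fun j => Blue c X T j S) r
    have hspec : ∀ S, Blue c X T (h S) S := by
      intro S
      exact Nat.findGreatest_spec (P := fun j => Blue c X T j S) (Nat.zero_le r) trivial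
    have hmono : ∀ S S', S ⊆ S' → h S ≤ h S' := by
      intro S S' hS
      exact Nat.le_findGreatest (Nat.findGreatest_le r) ((hspec S).mono hS)
    have hredS : ∀ S, S ⊆ X → c (S ∪ T (h S)) = false := by
      intro S hS
      by_contra hne
      have hb : c (S ∪ T (h S)) = true := by simpa using hne
      have h1 : Blue c X T (h S + 1) S := ⟨S, Subset.refl _, hS, hspec S, hb⟩
      have h2 : h S + 1 ≤ r := by
        by_contra hlt
        have h3 : h S ≤ r := Nat.findGreatest_le r
        have h4 : h S = r := by omega
        rw [h4] at h1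
        exact hnot S hS h1
      have h3 : h S + 1 ≤ h S := Nat.le_findGreatest h2 h1
      omega
    have hmapX : ∀ s : Finset (Fin n), s.map e ⊆ X := fun s => map_subset_map.2 (subset_univ s)
    refine ⟨OrderEmbedding.ofMapLEIff (fun s => s.map e ∪ T (h (s.map e))) ?_, ?_⟩
    · intro s s'
      constructor
      · intro hle
        have h1 : s.map e ⊆ s'.map e := by
          intro x hx
          have h2 : x ∈ s'.map e ∪ T (h (s'.map e)) := hle (mem_union_left _ hx)
          rcases mem_union.1 h2 with h3 | h3
          · exact h3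
          · exact absurd (hmapX s hx) (Finset.disjoint_left.1 (hTX _) h3)
        exact map_subset_map.1 h1
      · intro hle
        have h1 : s.map e ⊆ s'.map e := map_subset_map.2 hle
        exact union_subset_union h1 (hT (hmono _ _ h1))
    · intro s
      exact hredS _ (hmapX s)

end Chain

end Pool.Agent.Helper884_ChainCount
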