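import Pool.Agent.Helper884_ChainCount.Core

/-!
# The counting bound for colourings without a red Boolean lattice
-/

set_option autoImplicit false

namespace Pool.Agent.Helper884_ChainCount

open Finset

lemma pigeon {ι κ : Type*} [DecidableEq κ] (F : Finset ι) (B : Finset κ) (f : ι → κ)
    (h : ∀ a ∈ F, f a ∈ B) (hB : B.Nonempty) :
    ∃ b ∈ B, F.card ≤ B.card * (F.filter (fun a => f a = b)).card := by
  obtain ⟨b, hb, hmax⟩ := B.exists_max_image (fun b => (F.filter (fun a => f a = b)).card) hB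
  refine ⟨b, hb, ?_⟩
  rw [Finset.card_eq_sum_card_fiberwise (f := f) (t := B) (fun a ha => h a ha)]
  calc ∑ b' ∈ B, (F.filter (fun a => f a = b')).card
      ≤ ∑ b' ∈ B, (F.filter (fun a => f a = b)).card := Finset.sum_le_sum (fun b' hb' => hmax b' hb')
    _ = B.card * (F.filter (fun a => f a = b)).card := by simp

/-- Every family of blue pairs of fixed sizes has a subfamily of relative size at least `1 / K` on
which the crossing relation is transitive. -/
def PairProp {N : ℕ} (c : Finset (Fin N) → Bool) (K : ℕ) : Prop :=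
  ∀ (ι : Type) (F : Finset ι) (p q : ι → Finset (Fin N)) (x y : ℕ), x < y →
    (∀ a ∈ F, c (p a) = true ∧ c (q a) = true ∧ p a ⊆ q a ∧ (p a).card = x ∧ (q a).card = y) →
    ∃ G ⊆ F, F.card ≤ K * G.card ∧ ∀ a ∈ G, ∀ b ∈ G, ∀ d ∈ G,
      (p a ⊆ q b ∧ p b ⊆ q a) → (p b ⊆ q d ∧ p d ⊆ q b) → (p a ⊆ q d ∧ p d ⊆ q a)

/-- The level sets outside the first `n` points. -/
def lev {n k r : ℕ} (g : Fin k → Fin r) (i : ℕ) : Finset (Fin (n + k)) :=
  (univ.filter (fun j => (g j : ℕ) < i)).map (Fin.natAddEmb n)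

lemma lev_mono {n k r : ℕ} (g : Fin k → Fin r) : Monotone (lev (n := n) g) := by
  intro i i' h
  apply map_subset_map.2
  intro j hj
  simp only [mem_filter, mem_univ, true_and] at hj ⊢
  omega

lemma lev_disj {n k r : ℕ} (g : Fin k → Fin r) (i : ℕ) :
    Disjoint (lev (n := n) g i) (univ.map (Fin.castAddEmb (n := n) k)) := by
  rw [Finset.disjoint_left]
  intro x hx hx'
  simp only [lev, mem_map, mem_filter, mem_univ, true_and] at hx hx'
  obtain ⟨j, _, rfl⟩ := hx
  obtain ⟨j', hj'⟩ := hx'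
  have := congrArg Fin.val hj'
  simp at this
  omega

lemma mem_lev {n k r : ℕ} (g : Fin k → Fin r) (i : ℕ) (j : Fin k) :
    Fin.natAdd n j ∈ lev (n := n) g i ↔ (g j : ℕ) < i := by
  simp only [lev, mem_map, mem_filter, mem_univ, true_and]
  constructor
  · rintro ⟨j', h, hj'⟩
    have : j' = j := by
      have := congrArg Fin.val hj'
      simp at this
      exact Fin.ext (by omega)
    rwa [this] at h
  · intro h
    exact ⟨j, h, rfl⟩

/-- **Counting bound.** -/
theorem main_count {n k r K : ℕ} (hK : 1 ≤ K) (c : Finset (Fin (n + k)) → Bool)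
    (hred : ¬ ∃ g : Finset (Fin n) ↪o Finset (Fin (n + k)), ∀ x, c (g x) = false)
    (hpair : PairProp c K) :
    r ^ k ≤ (n + k + 1) ^ (r + 1) * (K ^ ((r + 1) ^ 2) * 2 ^ (n + k)) := by
  classical
  have hch : ∀ g : Fin k → Fin r, ∃ U : ℕ → Finset (Fin (n + k)), Monotone U ∧
      (∀ i, U i ⊆ univ.map (Fin.castAddEmb (n := n) k)) ∧
      ∀ i, i ≤ r → c (U i ∪ lev g i) = true := fun g =>
    chain_of_no_red c (Fin.castAddEmb (n := n) k) hred (lev g) (lev_mono g) r (lev_disj g)
  choose U hU1 hU2 hU3 using hch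
  let w : (Fin k → Fin r) → ℕ → Finset (Fin (n + k)) := fun g i => U g i ∪ lev g i
  have hw1 : ∀ g, Monotone (w g) := fun g i i' h => union_subset_union (hU1 g h) (lev_mono g h)
  have hw2 : ∀ g i, i ≤ r → c (w g i) = true := fun g i hi => hU3 g i hi
  have hw3 : ∀ g g', (∀ i, i ≤ r → w g i = w g' i) → g = g' := by
    intro g g' h
    have key : ∀ (g g' : Fin k → Fin r), (∀ i, i ≤ r → w g i = w g' i) → ∀ j,
        (g' j : ℕ) ≤ (g j : ℕ) := by
      intro g g' h j
      have h1 : Fin.natAdd n j ∈ w g ((g j : ℕ) + 1) :=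
        mem_union_right _ ((mem_lev g _ j).2 (by omega))
      rw [h _ (by omega)] at h1
      rcases mem_union.1 h1 with h2 | h2
      · exfalso
        have h3 := hU2 g' _ h2
        simp only [mem_map, mem_univ, true_and] at h3
        obtain ⟨j', hj'⟩ := h3
        have := congrArg Fin.val hj'
        simp at this
        omega
      · have := (mem_lev g' _ j).1 h2
        omega
    funext j
    exact Fin.ext (le_antisymm (key g' g (fun i hi => (h i hi).symm) j) (key g g' h j))
  -- fix the sizes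
  let sz : (Fin k → Fin r) → (Fin (r + 1) → Fin (n + k + 1)) := fun g i =>
    ⟨(w g i).card, by
      have := card_le_univ (w g i)
      simp at this; omega⟩
  obtain ⟨b, -, hb⟩ := pigeon (univ : Finset (Fin k → Fin r)) univ sz (fun _ _ => mem_univ _)
    univ_nonempty
  set F := (univ : Finset (Fin k → Fin r)).filter (fun a => sz a = b) with hF
  have hFsz : ∀ g ∈ F, ∀ i (hi : i < r + 1), (w g i).card = b ⟨i, hi⟩ := by
    intro g hg i hi
    have h1 : sz g = b := (mem_filter.1 hg).2
    rw [← h1]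
  let Ps : Finset (ℕ × ℕ) := (range (r + 1) ×ˢ range (r + 1)).filter (fun p => p.1 < p.2)
  have hPs : ∀ p, p ∈ Ps ↔ p.1 < p.2 ∧ p.2 ≤ r := by
    intro p
    simp only [Ps, mem_filter, mem_product, mem_range]
    omega
  have hPscard : Ps.card ≤ (r + 1) ^ 2 := by
    refine (card_filter_le _ _).trans ?_
    simp [card_product, sq]
  obtain ⟨G, hGF, hGcard, hGtr⟩ := exists_trans_subfamily
    (fun (p : ℕ × ℕ) (a a' : Fin k → Fin r) => w a p.1 ⊆ w a' p.2 ∧ w a' p.1 ⊆ w a p.2) K F Ps (by
      intro p hp F' hF'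
      have hp' := (hPs p).1 hp
      have h1 : p.1 < r + 1 := by omega
      have h2 : p.2 < r + 1 := by omega
      rcases Nat.lt_or_ge (b ⟨p.1, h1⟩ : ℕ) (b ⟨p.2, h2⟩ : ℕ) with hlt | hge
      · exact hpair _ F' (fun a => w a p.1) (fun a => w a p.2) _ _ hlt (by
          intro a ha
          exact ⟨hw2 a _ (by omega), hw2 a _ (by omega), hw1 a (by omega),
            hFsz a (hF' ha) _ h1, hFsz a (hF' ha) _ h2⟩)
      · have heq : ∀ a ∈ F', w a p.1 = w a p.2 := by
          intro a ha
          apply Finset.eq_of_subset_of_card_le (hw1 a (by omega))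
          rw [hFsz a (hF' ha) _ h1, hFsz a (hF' ha) _ h2]
          exact hge
        refine ⟨F', Subset.refl _, Nat.le_mul_of_pos_left _ (by omega), ?_⟩
        intro x hx y hy z hz hxy hyz
        simp only [heq x hx, heq y hy, heq z hz] at hxy hyz ⊢
        have e1 : w x p.2 = w y p.2 := Subset.antisymm hxy.1 hxy.2
        have e2 : w y p.2 = w z p.2 := Subset.antisymm hyz.1 hyz.2
        rw [e1, e2]
        exact ⟨Subset.refl _, Subset.refl _⟩)
  have hG : G.card ≤ 2 ^ (n + k) := by
    have := card_le_of_trans (ι := {g // g ∈ G}) (α := Fin (n + k))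
      (fun g i => (↑(w g.1 i) : Set (Fin (n + k)))) r
      (fun g i i' h => Finset.coe_subset.2 (hw1 g.1 h))
      (by
        intro g g' h
        apply Subtype.ext
        apply hw3
        intro i hi
        exact Finset.coe_injective (h i hi))
      (by
        intro s t hst htr a b' d hab hbd
        simp only [Rel, Finset.coe_subset] at hab hbd ⊢
        exact hGtr (s, t) ((hPs (s, t)).2 ⟨hst, htr⟩) a.1 a.2 b'.1 b'.2 d.1 d.2 hab hbd)
    simpa using this
  have hcard : r ^ k ≤ (n + k + 1) ^ (r + 1) * F.card := by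
    simpa using hb
  calc r ^ k ≤ (n + k + 1) ^ (r + 1) * F.card := hcard
    _ ≤ (n + k + 1) ^ (r + 1) * (K ^ Ps.card * G.card) := Nat.mul_le_mul_left _ hGcard
    _ ≤ (n + k + 1) ^ (r + 1) * (K ^ ((r + 1) ^ 2) * 2 ^ (n + k)) :=
        Nat.mul_le_mul_left _ (Nat.mul_le_mul (Nat.pow_le_pow_right hK hPscard) hG)

end Pool.Agent.Helper884_ChainCount
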