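import Pool.Agent.Helper884_ChainCount.Count

/-!
# The pair property when the blue sets have small order dimension
-/

set_option autoImplicit false

namespace Pool.Agent.Helper884_ChainCount

open Finset

lemma exists_bit {A B M : ℕ} (hAB : A < B) (hB : B < 2 ^ M) :
    ∃ β, β < M ∧ A / 2 ^ (β + 1) = B / 2 ^ (β + 1) ∧ A / 2 ^ β < B / 2 ^ β := by
  classical
  have hex : ∃ m, A / 2 ^ m = B / 2 ^ m :=
    ⟨M, by rw [Nat.div_eq_of_lt hB, Nat.div_eq_of_lt (hAB.trans hB)]⟩
  have h0 : Nat.find hex ≠ 0 := by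
    intro h
    have := Nat.find_spec hex
    rw [h] at this
    simp at this
    omega
  obtain ⟨β, hβ⟩ : ∃ β, Nat.find hex = β + 1 := ⟨Nat.find hex - 1, by omega⟩
  have hM : Nat.find hex ≤ M :=
    Nat.find_le (by rw [Nat.div_eq_of_lt hB, Nat.div_eq_of_lt (hAB.trans hB)])
  refine ⟨β, by omega, ?_, ?_⟩
  · have := Nat.find_spec hex
    rwa [hβ] at this
  · have h1 : A / 2 ^ β ≤ B / 2 ^ β := Nat.div_le_div_right hAB.le
    have h2 : A / 2 ^ β ≠ B / 2 ^ β := Nat.find_min hex (by omega)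
    omega

lemma bit_spec {A B β : ℕ} (h1 : A / 2 ^ (β + 1) = B / 2 ^ (β + 1)) (h2 : A / 2 ^ β < B / 2 ^ β) :
    A < (2 * (A / 2 ^ (β + 1)) + 1) * 2 ^ β ∧ (2 * (A / 2 ^ (β + 1)) + 1) * 2 ^ β ≤ B := by
  have hA : A / 2 ^ β / 2 = A / 2 ^ (β + 1) := by rw [Nat.div_div_eq_div_mul, pow_succ]
  have hB : B / 2 ^ β / 2 = B / 2 ^ (β + 1) := by rw [Nat.div_div_eq_div_mul, pow_succ]
  set w := A / 2 ^ (β + 1) with hw
  have e1 : A / 2 ^ β = 2 * w := by omega
  have e2 : B / 2 ^ β = 2 * w + 1 := by omega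
  have hpos : 0 < 2 ^ β := by positivity
  constructor
  · have := Nat.lt_div_mul_add (a := A) hpos
    rw [e1] at this
    calc A < 2 * w * 2 ^ β + 2 ^ β := this
      _ = (2 * w + 1) * 2 ^ β := by ring
  · rw [← e2]
    exact Nat.div_mul_le_self B _

lemma exists_rank {N d : ℕ} (c : Finset (Fin N) → Bool)
    (φ : {x : Finset (Fin N) // c x = true} ↪o (Fin d → ℕ)) :
    ∃ ρ : Fin d → Finset (Fin N) → ℕ, (∀ i x, ρ i x < 2 ^ N) ∧
      ∀ x y, c x = true → c y = true → ((∀ i, ρ i x ≤ ρ i y) ↔ x ⊆ y) := by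
  classical
  let R : Fin d → {x : Finset (Fin N) // c x = true} → ℕ := fun i x =>
    ((univ : Finset {x : Finset (Fin N) // c x = true}).filter (fun y => φ y i < φ x i)).card
  have hRlt : ∀ i x, R i x < 2 ^ N := by
    intro i x
    have h1 : R i x < (univ : Finset {x : Finset (Fin N) // c x = true}).card := by
      apply card_lt_card
      refine ⟨filter_subset _ _, fun h => ?_⟩
      have := h (mem_univ x)
      simp at this
    have h2 : (univ : Finset {x : Finset (Fin N) // c x = true}).card ≤ 2 ^ N := by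
      have := Fintype.card_subtype_le (fun x : Finset (Fin N) => c x = true)
      simpa using this
    omega
  have hRle : ∀ i x y, R i x ≤ R i y ↔ φ x i ≤ φ y i := by
    intro i x y
    constructor
    · intro h
      by_contra hlt
      push Not at hlt
      have : R i y < R i x := by
        apply card_lt_card
        refine ⟨fun z hz => ?_, fun h' => ?_⟩
        · simp only [mem_filter, mem_univ, true_and] at hz ⊢
          omega
        · have hy : y ∈ (univ : Finset {x : Finset (Fin N) // c x = true}).filter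
              (fun z => φ z i < φ x i) := by simpa using hlt
          have := h' hy
          simp at this
      omega
    · intro h
      apply card_le_card
      intro z hz
      simp only [mem_filter, mem_univ, true_and] at hz ⊢
      omega
  refine ⟨fun i x => if h : c x = true then R i ⟨x, h⟩ else 0, ?_, ?_⟩
  · intro i x
    by_cases h : c x = true
    · simp only [h, dif_pos]; exact hRlt _ _
    · simp only [h]
      simp
  · intro x y hx hy
    simp only [hx, hy, dif_pos, hRle]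
    have : (φ ⟨x, hx⟩ ≤ φ ⟨y, hy⟩) ↔ ((⟨x, hx⟩ : {x : Finset (Fin N) // c x = true}) ≤ ⟨y, hy⟩) :=
      φ.le_iff_le
    rw [← Pi.le_def, this]
    rfl

/-- If the blue sets embed into `ℕ ^ d`, the pair property holds with the factor `(N + 1) ^ d`. -/
theorem pairProp_of_dim {N d : ℕ} (c : Finset (Fin N) → Bool)
    (φ : {x : Finset (Fin N) // c x = true} ↪o (Fin d → ℕ)) : PairProp c ((N + 1) ^ d) := by
  classical
  obtain ⟨ρ, hρ1, hρ2⟩ := exists_rank c φ
  intro ι F p q x y hxy hF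
  have hbit : ∀ a ∈ F, ∀ i : Fin d, ∃ β, β < N + 1 ∧
      (2 * ρ i (p a)) / 2 ^ (β + 1) = (2 * ρ i (q a) + 1) / 2 ^ (β + 1) ∧
      (2 * ρ i (p a)) / 2 ^ β < (2 * ρ i (q a) + 1) / 2 ^ β := by
    intro a ha i
    obtain ⟨hp, hq, hpq, -, -⟩ := hF a ha
    apply exists_bit
    · have := (hρ2 _ _ hp hq).2 hpq i
      omega
    · have := hρ1 i (q a)
      rw [pow_succ]
      omega
  choose! β hβ1 hβ2 hβ3 using hbit
  let f : ι → (Fin d → Fin (N + 1)) := fun a i => ⟨β a i % (N + 1), Nat.mod_lt _ (by omega)⟩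
  obtain ⟨b, -, hb⟩ := pigeon F (univ : Finset (Fin d → Fin (N + 1))) f (fun _ _ => mem_univ _)
    univ_nonempty
  refine ⟨F.filter (fun a => f a = b), filter_subset _ _, by simpa using hb, ?_⟩
  have hβb : ∀ a ∈ F.filter (fun a => f a = b), ∀ i, β a i = b i := by
    intro a ha i
    obtain ⟨ha1, ha2⟩ := mem_filter.1 ha
    have h1 : (f a i : ℕ) = b i := by rw [ha2]
    have h2 : β a i % (N + 1) = β a i := Nat.mod_eq_of_lt (hβ1 a ha1 i)
    simp only [f] at h1
    omega
  have key1 : ∀ a ∈ F.filter (fun a => f a = b), ∀ a' ∈ F.filter (fun a => f a = b),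
      p a ⊆ q a' → ∀ i, (2 * ρ i (p a)) / 2 ^ ((b i : ℕ) + 1)
        ≤ (2 * ρ i (p a')) / 2 ^ ((b i : ℕ) + 1) := by
    intro a ha a' ha' h i
    have e1 := hβb a ha i
    have e2 := hβb a' ha' i
    have ha1 := (mem_filter.1 ha).1
    have ha1' := (mem_filter.1 ha').1
    have h1 := (hρ2 _ _ (hF a ha1).1 (hF a' ha1').2.1).2 h i
    have h2 := hβ2 a' ha1' i
    rw [e2] at h2
    rw [h2]
    exact Nat.div_le_div_right (by omega)
  have key2 : ∀ a ∈ F.filter (fun a => f a = b), ∀ a' ∈ F.filter (fun a => f a = b),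
      (∀ i, (2 * ρ i (p a)) / 2 ^ ((b i : ℕ) + 1)
        = (2 * ρ i (p a')) / 2 ^ ((b i : ℕ) + 1)) → p a ⊆ q a' := by
    intro a ha a' ha' h
    have ha1 := (mem_filter.1 ha).1
    have ha1' := (mem_filter.1 ha').1
    apply (hρ2 _ _ (hF a ha1).1 (hF a' ha1').2.1).1
    intro i
    have s1 := bit_spec (hβ2 a ha1 i) (hβ3 a ha1 i)
    have s2 := bit_spec (hβ2 a' ha1' i) (hβ3 a' ha1' i)
    rw [hβb a ha i] at s1
    rw [hβb a' ha' i] at s2
    rw [h i] at s1
    have := s1.1.trans_le s2.2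
    omega
  intro a ha a' ha' d' hd' h1 h2
  have e1 : ∀ i, (2 * ρ i (p a)) / 2 ^ ((b i : ℕ) + 1)
        = (2 * ρ i (p a')) / 2 ^ ((b i : ℕ) + 1) := fun i =>
    le_antisymm (key1 a ha a' ha' h1.1 i) (key1 a' ha' a ha h1.2 i)
  have e2 : ∀ i, (2 * ρ i (p a')) / 2 ^ ((b i : ℕ) + 1)
        = (2 * ρ i (p d')) / 2 ^ ((b i : ℕ) + 1) := fun i =>
    le_antisymm (key1 a' ha' d' hd' h2.1 i) (key1 d' hd' a' ha' h2.2 i)
  have e3 := fun i => (e1 i).trans (e2 i)
  exact ⟨key2 a ha d' hd' e3, key2 d' hd' a ha (fun i => (e3 i).symm)⟩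

end Pool.Agent.Helper884_ChainCount
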