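import Pool.Agent.Helper884_ChainCount.Count

/-!
# Halving: families of pairs without long triangular sequences
-/

set_option autoImplicit false

namespace Pool.Agent.Helper884_ChainCount

open Finset

section

variable {ι : Type} {N : ℕ} (p q : ι → Finset (Fin N))

/-- A triangular list: no earlier lower set is contained in a later upper set. -/
def Tri (l : List ι) : Prop := l.Pairwise (fun e e' => ¬ p e ⊆ q e')

/-- An induced matching, as a list. -/
def Mat (l : List ι) : Prop := l.Pairwise (fun e e' => ¬ p e ⊆ q e' ∧ ¬ p e' ⊆ q e)

/-- All triangular lists in `F` have length less than `t`. -/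
def TriBound (F : Finset ι) (t : ℕ) : Prop := ∀ l : List ι, (∀ e ∈ l, e ∈ F) → Tri p q l → l.length < t

open Classical in
/-- **Halving lemma.** -/
theorem halving (u : ℕ) (F : Finset ι) (hpq : ∀ e ∈ F, p e ⊆ q e) (hN : 1 ≤ N)
    (ht : TriBound p q F (2 ^ u)) :
    ∃ G ⊆ F, F.card ≤ 2 * (4 * N) ^ u * G.card ∧ ∀ a ∈ G, ∀ b ∈ G, p a ⊆ q b := by
  induction u generalizing F with
  | zero =>
    have hF : F = ∅ := by
      by_contra hne
      obtain ⟨e, he⟩ := Finset.nonempty_iff_ne_empty.2 hne
      have := ht [e] (by simpa using he) (by simp [Tri])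
      simp at this
    exact ⟨∅, by simp, by simp [hF], by simp⟩
  | succ u ih =>
    let F1 : Fin N → Finset ι := fun x => F.filter (fun e => x ∈ p e)
    let F2 : Fin N → Finset ι := fun x => F.filter (fun e => x ∉ q e)
    have h1F : ∀ x, F1 x ⊆ F := fun x => filter_subset _ _
    have h2F : ∀ x, F2 x ⊆ F := fun x => filter_subset _ _
    by_cases hbig : ∃ x, F.card ≤ 4 * N * (F1 x).card ∧ F.card ≤ 4 * N * (F2 x).card
    · obtain ⟨x, hx1, hx2⟩ := hbig
      have hor : TriBound p q (F1 x) (2 ^ u) ∨ TriBound p q (F2 x) (2 ^ u) := by
        by_contra hno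
        push Not at hno
        obtain ⟨hn1, hn2⟩ := hno
        simp only [TriBound, not_forall, not_lt] at hn1 hn2
        obtain ⟨l1, hl1, ht1, hlen1⟩ := hn1
        obtain ⟨l2, hl2, ht2, hlen2⟩ := hn2
        have := ht (l1 ++ l2) (by
          intro e he
          rcases List.mem_append.1 he with h | h
          · exact h1F x (hl1 e h)
          · exact h2F x (hl2 e h)) (by
          refine List.pairwise_append.2 ⟨ht1, ht2, ?_⟩
          intro e he e' he' hsub
          have h1 := (mem_filter.1 (hl1 e he)).2
          have h2 := (mem_filter.1 (hl2 e' he')).2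
          exact h2 (hsub h1))
        rw [List.length_append, pow_succ] at this
        omega
      rcases hor with h | h
      · obtain ⟨G, hG, hc, hG2⟩ := ih (F1 x) (fun e he => hpq e (h1F x he)) h
        refine ⟨G, hG.trans (h1F x), ?_, hG2⟩
        calc F.card ≤ 4 * N * (F1 x).card := hx1
          _ ≤ 4 * N * (2 * (4 * N) ^ u * G.card) := Nat.mul_le_mul_left _ hc
          _ = 2 * (4 * N) ^ (u + 1) * G.card := by ring
      · obtain ⟨G, hG, hc, hG2⟩ := ih (F2 x) (fun e he => hpq e (h2F x he)) h
        refine ⟨G, hG.trans (h2F x), ?_, hG2⟩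
        calc F.card ≤ 4 * N * (F2 x).card := hx2
          _ ≤ 4 * N * (2 * (4 * N) ^ u * G.card) := Nat.mul_le_mul_left _ hc
          _ = 2 * (4 * N) ^ (u + 1) * G.card := by ring
    · push Not at hbig
      let Vs : Finset (Fin N) := univ.filter (fun x => 4 * N * (F2 x).card < F.card)
      let G : Finset ι := F.filter (fun e => p e ⊆ Vs ∧ Vs ⊆ q e)
      have hbad : F \ G ⊆ (univ : Finset (Fin N)).biUnion
          (fun x => if x ∈ Vs then F2 x else F1 x) := by
        intro e he
        obtain ⟨he1, he2⟩ := mem_sdiff.1 he
        have he3 : ¬ (p e ⊆ Vs ∧ Vs ⊆ q e) := fun h => he2 (mem_filter.2 ⟨he1, h⟩)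
        rw [not_and_or] at he3
        rcases he3 with h | h
        · obtain ⟨x, hx1, hx2⟩ := Finset.not_subset.1 h
          refine mem_biUnion.2 ⟨x, mem_univ _, ?_⟩
          simp only [hx2, if_false]
          exact mem_filter.2 ⟨he1, hx1⟩
        · obtain ⟨x, hx1, hx2⟩ := Finset.not_subset.1 h
          refine mem_biUnion.2 ⟨x, mem_univ _, ?_⟩
          simp only [hx1, if_true]
          exact mem_filter.2 ⟨he1, hx2⟩
      have hsmall : ∀ x, 4 * N * (if x ∈ Vs then F2 x else F1 x).card ≤ F.card := by
        intro x
        by_cases hx : x ∈ Vs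
        · simp only [hx, if_true]
          exact (mem_filter.1 hx).2.le
        · simp only [hx, if_false]
          by_contra hlt
          push Not at hlt
          have h2 : 4 * N * (F2 x).card < F.card := hbig x hlt.le
          exact hx (mem_filter.2 ⟨mem_univ _, h2⟩)
      have hcard : 4 * N * (F \ G).card ≤ N * F.card := by
        calc 4 * N * (F \ G).card
            ≤ 4 * N * ∑ x : Fin N, (if x ∈ Vs then F2 x else F1 x).card :=
              Nat.mul_le_mul_left _ ((card_le_card hbad).trans card_biUnion_le)
          _ = ∑ x : Fin N, 4 * N * (if x ∈ Vs then F2 x else F1 x).card := by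
              rw [Finset.mul_sum]
          _ ≤ ∑ x : Fin N, F.card := Finset.sum_le_sum (fun x _ => hsmall x)
          _ = N * F.card := by simp
      have hcard2 : 4 * (F \ G).card ≤ F.card := by
        have h : N * (4 * (F \ G).card) ≤ N * F.card := by
          calc N * (4 * (F \ G).card) = 4 * N * (F \ G).card := by ring
            _ ≤ N * F.card := hcard
        exact Nat.le_of_mul_le_mul_left h (by omega)
      have hGF : G ⊆ F := filter_subset _ _
      have hsum : (F \ G).card + G.card = F.card := card_sdiff_add_card_eq_card hGF
      refine ⟨G, hGF, ?_, ?_⟩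
      · have h1 : F.card ≤ 2 * G.card := by omega
        have h2 : 1 ≤ (4 * N) ^ (u + 1) := Nat.one_le_pow _ _ (by omega)
        calc F.card ≤ 2 * G.card := h1
          _ = 2 * 1 * G.card := by ring
          _ ≤ 2 * (4 * N) ^ (u + 1) * G.card :=
            Nat.mul_le_mul_right _ (Nat.mul_le_mul_left _ h2)
      · intro a ha b hb
        exact ((mem_filter.1 ha).2.1).trans ((mem_filter.1 hb).2.2)

/-- The bound for triangular lists without an induced matching of size `m`. -/
def fb (N : ℕ) : ℕ → ℕ
  | 0 => 0
  | (m + 1) => (N + 1) * (fb N m + 1)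

lemma fb_lt (N m : ℕ) : fb N m < (N + 2) ^ m := by
  induction m with
  | zero => simp [fb]
  | succ m ih =>
    have h1 : fb N m + 1 ≤ (N + 2) ^ m := ih
    have h2 : 1 ≤ (N + 2) ^ m := Nat.one_le_pow _ _ (by omega)
    calc fb N (m + 1) = (N + 1) * (fb N m + 1) := rfl
      _ ≤ (N + 1) * (N + 2) ^ m := Nat.mul_le_mul_left _ h1
      _ < (N + 1) * (N + 2) ^ m + (N + 2) ^ m := by omega
      _ = (N + 2) ^ (m + 1) := by ring

lemma tri_aux (m b : ℕ)
    (hb : ∀ l : List ι, (∀ e ∈ l, p e ⊆ q e) → Tri p q l →
      (∀ l', l'.Sublist l → Mat p q l' → l'.length < m) → l.length ≤ b)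
    (s : ℕ) : ∀ (C p₀ : Finset (Fin N)) (l : List ι), C.card ≤ s → p₀ ⊆ C →
      (∀ e ∈ l, p e ⊆ q e) → (∀ e ∈ l, p e ⊆ C) → (∀ e ∈ l, ¬ p₀ ⊆ q e) → Tri p q l →
      (∀ l', l'.Sublist l → Mat p q l' → l'.length < m + 1) → l.length ≤ s * (b + 1) := by
  classical
  induction s with
  | zero =>
    intro C p₀ l hC hp₀ hpq hlC hl₀ htri hmat
    cases l with
    | nil => simp
    | cons e l =>
      exfalso
      have h1 : C = ∅ := Finset.card_eq_zero.1 (by omega)
      subst h1
      exact hl₀ e (by simp) (hp₀.trans (by simp))
  | succ s ih =>
    intro C p₀ l hC hp₀ hpq hlC hl₀ htri hmat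
    cases l with
    | nil => simp
    | cons e l =>
      have htri' : (∀ a' ∈ l, ¬ p e ⊆ q a') ∧ Tri p q l := List.pairwise_cons.1 htri
      let lI := l.filter (fun e' => decide (¬ p e' ⊆ q e))
      let lR := l.filter (fun e' => decide (p e' ⊆ q e))
      have hlen : l.length = lR.length + lI.length := by
        have := List.length_eq_length_filter_add (l := l) (fun e' => decide (p e' ⊆ q e))
        simpa [lI, lR] using this
      have hIsub : lI.Sublist l := List.filter_sublist
      have hRsub : lR.Sublist l := List.filter_sublist
      have hI : lI.length ≤ b := by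
        apply hb
        · intro e' he'
          exact hpq e' (List.mem_cons_of_mem _ (hIsub.subset he'))
        · exact htri'.2.sublist hIsub
        · intro l' hl' hmat'
          have h1 : Mat p q (e :: l') := by
            refine List.pairwise_cons.2 ⟨?_, hmat'⟩
            intro a' ha'
            have h2 := hl'.subset ha'
            have h3 := List.mem_filter.1 h2
            exact ⟨htri'.1 a' h3.1, by simpa using h3.2⟩
          have h2 := hmat (e :: l') ((hl'.trans hIsub).cons_cons e) h1
          simp at h2
          omega
      have hR : lR.length ≤ s * (b + 1) := by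
        apply ih (C ∩ q e) (p e) lR
        · have h1 : (C ∩ q e).card < C.card := by
            apply card_lt_card
            refine ⟨inter_subset_left, fun h => ?_⟩
            exact hl₀ e (by simp) (hp₀.trans (h.trans inter_subset_right))
          omega
        · exact subset_inter (hlC e (by simp)) (hpq e (by simp))
        · intro e' he'
          exact hpq e' (List.mem_cons_of_mem _ (hRsub.subset he'))
        · intro e' he'
          have h3 := List.mem_filter.1 he'
          exact subset_inter (hlC e' (List.mem_cons_of_mem _ h3.1)) (by simpa using h3.2)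
        · intro e' he'
          exact htri'.1 e' (hRsub.subset he')
        · exact htri'.2.sublist hRsub
        · intro l' hl' hmat'
          exact hmat l' ((hl'.trans hRsub).trans (List.sublist_cons_self e l)) hmat'
      rw [List.length_cons, hlen]
      calc lR.length + lI.length + 1 ≤ s * (b + 1) + b + 1 := by omega
        _ = (s + 1) * (b + 1) := by ring

/-- A triangular list without an induced matching of size `m` has length at most `fb N m`. -/
theorem tri_bound (m : ℕ) : ∀ l : List ι, (∀ e ∈ l, p e ⊆ q e) → Tri p q l →
    (∀ l', l'.Sublist l → Mat p q l' → l'.length < m) → l.length ≤ fb N m := by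
  classical
  induction m with
  | zero =>
    intro l _ _ h
    exact absurd (h [] (List.nil_sublist _) List.Pairwise.nil) (by simp)
  | succ m ih =>
    intro l hpq htri hmat
    cases l with
    | nil => simp
    | cons e l =>
      have htri' : (∀ a' ∈ l, ¬ p e ⊆ q a') ∧ Tri p q l := List.pairwise_cons.1 htri
      let lI := l.filter (fun e' => decide (¬ p e' ⊆ q e))
      let lR := l.filter (fun e' => decide (p e' ⊆ q e))
      have hlen : l.length = lR.length + lI.length := by
        have := List.length_eq_length_filter_add (l := l) (fun e' => decide (p e' ⊆ q e))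
        simpa [lI, lR] using this
      have hIsub : lI.Sublist l := List.filter_sublist
      have hRsub : lR.Sublist l := List.filter_sublist
      have hI : lI.length ≤ fb N m := by
        apply ih
        · intro e' he'
          exact hpq e' (List.mem_cons_of_mem _ (hIsub.subset he'))
        · exact htri'.2.sublist hIsub
        · intro l' hl' hmat'
          have h1 : Mat p q (e :: l') := by
            refine List.pairwise_cons.2 ⟨?_, hmat'⟩
            intro a' ha'
            have h2 := hl'.subset ha'
            have h3 := List.mem_filter.1 h2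
            exact ⟨htri'.1 a' h3.1, by simpa using h3.2⟩
          have h2 := hmat (e :: l') ((hl'.trans hIsub).cons_cons e) h1
          simp at h2
          omega
      have hR : lR.length ≤ N * (fb N m + 1) := by
        apply tri_aux p q m (fb N m) ih N (q e) (p e) lR
        · have := card_le_univ (q e)
          simpa using this
        · exact hpq e (by simp)
        · intro e' he'
          exact hpq e' (List.mem_cons_of_mem _ (hRsub.subset he'))
        · intro e' he'
          have h3 := List.mem_filter.1 he'
          simpa using h3.2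
        · intro e' he'
          exact htri'.1 e' (hRsub.subset he')
        · exact htri'.2.sublist hRsub
        · intro l' hl' hmat'
          exact hmat l' ((hl'.trans hRsub).trans (List.sublist_cons_self e l)) hmat'
      rw [List.length_cons, hlen]
      calc lR.length + lI.length + 1 ≤ N * (fb N m + 1) + fb N m + 1 := by omega
        _ = (N + 1) * (fb N m + 1) := by ring
        _ = fb N (m + 1) := rfl

end

end Pool.Agent.Helper884_ChainCount
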