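import Pool.Agent.Helper884_ChainCount.Halving

/-!
# Spiders and the pair property for colourings without a blue spider
-/

set_option autoImplicit false

namespace Pool.Agent.Helper884_ChainCount

open Finset

/-- The spider with `m` legs: `center > low i < high i` for each `i < m`, and no other strict relation.
Its comparability graph is the star with `m` edges with every edge subdivided. -/
inductive Spider (m : ℕ) : Type
  | center : Spider m
  | low : Fin m → Spider m
  | high : Fin m → Spider m

namespace Spider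

/-- The order of the spider. -/
def Le {m : ℕ} : Spider m → Spider m → Prop
  | .center, .center => True
  | .low _, .center => True
  | .low i, .low j => i = j
  | .low i, .high j => i = j
  | .high i, .high j => i = j
  | _, _ => False

instance {m : ℕ} : PartialOrder (Spider m) where
  le := Le
  le_refl x := by cases x <;> simp [Le]
  le_trans x y z := by
    cases x <;> cases y <;> cases z <;> simp [Le] <;> (intro h1 h2; exact h1.trans h2)
  le_antisymm x y := by
    cases x <;> cases y <;> simp [Le] <;> (intro h1 _; exact h1)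

lemma le_def {m : ℕ} (x y : Spider m) : x ≤ y ↔ Le x y := Iff.rfl

/-- A spider with fewer legs embeds into a spider with more legs. -/
def castLE {m m' : ℕ} (h : m ≤ m') : Spider m ↪o Spider m' :=
  OrderEmbedding.ofMapLEIff (fun x => match x with
    | .center => .center
    | .low i => .low (Fin.castLE h i)
    | .high i => .high (Fin.castLE h i)) (by
    intro x y
    cases x <;> cases y <;> simp [le_def, Le])

/-- A copy of the spider from sets of two sizes. -/
lemma exists_copy {N m x y : ℕ} (c : Finset (Fin N) → Bool) (hxy : x < y)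
    (a b : Fin m → Finset (Fin N)) (z : Finset (Fin N))
    (ha : ∀ i, c (a i) = true) (hb : ∀ i, c (b i) = true) (hz : c z = true)
    (hax : ∀ i, (a i).card = x) (hby : ∀ i, (b i).card = y) (hzy : z.card = y)
    (hab : ∀ i, a i ⊆ b i) (haz : ∀ i, a i ⊆ z) (hne : ∀ i j, i ≠ j → ¬ a i ⊆ b j)
    (hbz : ∀ i, b i ≠ z) :
    ∃ f : Spider m ↪o Finset (Fin N), ∀ x, c (f x) = true := by
  refine ⟨OrderEmbedding.ofMapLEIff (fun x => match x with
    | .center => z
    | .low i => a i
    | .high i => b i) ?_, ?_⟩
  · intro u v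
    cases u with
    | center =>
      cases v with
      | center => simp [le_def, Le]
      | low j =>
        simp only [le_def, Le, iff_false, Finset.le_eq_subset]
        intro h
        have := card_le_card h
        rw [hax, hzy] at this
        omega
      | high j =>
        simp only [le_def, Le, iff_false, Finset.le_eq_subset]
        intro h
        exact hbz j (Finset.eq_of_subset_of_card_le h (by rw [hby, hzy])).symm
    | low i =>
      cases v with
      | center => simp only [le_def, Le, iff_true, Finset.le_eq_subset]; exact haz i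
      | low j =>
        simp only [le_def, Le, Finset.le_eq_subset]
        constructor
        · intro h
          by_contra hij
          have h1 : a i = a j := Finset.eq_of_subset_of_card_le h (by rw [hax, hax])
          exact hne i j hij (h1 ▸ hab j)
        · rintro rfl; exact Subset.refl _
      | high j =>
        simp only [le_def, Le, Finset.le_eq_subset]
        constructor
        · intro h
          by_contra hij
          exact hne i j hij h
        · rintro rfl; exact hab i
    | high i =>
      cases v with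
      | center =>
        simp only [le_def, Le, iff_false, Finset.le_eq_subset]
        intro h
        exact hbz i (Finset.eq_of_subset_of_card_le h (by rw [hby, hzy]))
      | low j =>
        simp only [le_def, Le, iff_false, Finset.le_eq_subset]
        intro h
        have := card_le_card h
        rw [hax, hby] at this
        omega
      | high j =>
        simp only [le_def, Le, Finset.le_eq_subset]
        constructor
        · intro h
          by_contra hij
          have h1 : b i = b j := Finset.eq_of_subset_of_card_le h (by rw [hby, hby])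
          exact hne i j hij (h1 ▸ hab i)
        · rintro rfl; exact Subset.refl _
  · intro u
    cases u with
    | center => exact hz
    | low i => exact ha i
    | high i => exact hb i

end Spider

/-- The factor in the pair property. -/
def Kc (N m : ℕ) : ℕ := 2 * m * (2 * (4 * N) ^ (m * (Nat.log 2 (N + 2) + 1)))

lemma fb_lt_two_pow (N m : ℕ) : fb N m < 2 ^ (m * (Nat.log 2 (N + 2) + 1)) := by
  calc fb N m < (N + 2) ^ m := fb_lt N m
    _ ≤ (2 ^ (Nat.log 2 (N + 2) + 1)) ^ m :=
      Nat.pow_le_pow_left (Nat.lt_pow_succ_log_self (by norm_num) _).le _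
    _ = 2 ^ (m * (Nat.log 2 (N + 2) + 1)) := by rw [← pow_mul, mul_comm]

open Classical in
/-- The pair property for colourings without a blue spider. -/
theorem pairProp_of_spider {N m : ℕ} (hN : 1 ≤ N) (hm : 2 ≤ m) (c : Finset (Fin N) → Bool)
    (hfree : ¬ ∃ f : Spider m ↪o Finset (Fin N), ∀ x, c (f x) = true) :
    PairProp c ((N + 1) * Kc N m) := by
  intro ι F p q x y hxy hF
  let B : Finset (Finset (Fin N)) := F.image q
  have hBy : ∀ b ∈ B, b.card = y ∧ c b = true := by
    intro b hb
    obtain ⟨e, he, rfl⟩ := mem_image.1 hb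
    exact ⟨(hF e he).2.2.2.2, (hF e he).2.1⟩
  let Nb : ι → Finset (Finset (Fin N)) := fun e => B.filter (fun b => p e ⊆ b)
  have hNbpos : ∀ e ∈ F, Nb e ≠ ∅ := by
    intro e he
    apply Finset.nonempty_iff_ne_empty.1
    exact ⟨q e, mem_filter.2 ⟨mem_image_of_mem q he, (hF e he).2.2.1⟩⟩
  have hNble : ∀ e, (Nb e).card ≤ 2 ^ N := by
    intro e
    have := card_le_univ (Nb e)
    simpa using this
  obtain ⟨j, hj, hFj⟩ := pigeon F (range (N + 1)) (fun e => Nat.log 2 (Nb e).card)
    (by
      intro e he
      rw [mem_range]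
      have h1 : Nat.log 2 (Nb e).card ≤ Nat.log 2 (2 ^ N) := Nat.log_mono_right (hNble e)
      rw [Nat.log_pow (by norm_num)] at h1
      omega) ⟨0, by simp⟩
  set F' := F.filter (fun e => Nat.log 2 (Nb e).card = j) with hF'
  have hF'F : F' ⊆ F := filter_subset _ _
  have hlow : ∀ e ∈ F', 2 ^ j ≤ (Nb e).card := by
    intro e he
    obtain ⟨h1, h2⟩ := mem_filter.1 he
    rw [← h2]
    exact Nat.pow_log_le_self 2 (by
      intro h0
      exact hNbpos e h1 (Finset.card_eq_zero.1 h0))
  have hhigh : ∀ e ∈ F', (Nb e).card ≤ 2 ^ (j + 1) := by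
    intro e he
    obtain ⟨h1, h2⟩ := mem_filter.1 he
    rw [← h2]
    exact (Nat.lt_pow_succ_log_self (by norm_num) _).le
  -- main claim
  have main : ∀ H : Finset ι, H ⊆ F' → ∃ G ⊆ H, H.card ≤ Kc N m * G.card ∧
      ∀ a ∈ G, ∀ b ∈ G, ∀ d ∈ G,
      (p a ⊆ q b ∧ p b ⊆ q a) → (p b ⊆ q d ∧ p d ⊆ q b) → (p a ⊆ q d ∧ p d ⊆ q a) := by
    intro H
    induction H using Finset.strongInduction with
    | H H ih =>
    intro hHF'
    have hHF : H ⊆ F := hHF'.trans hF'F
    rcases Finset.eq_empty_or_nonempty H with rfl | hne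
    · exact ⟨∅, by simp, by simp, by simp⟩
    let M : ι → Finset (Finset (Fin N)) := fun e =>
      B.filter (fun b => ∃ e' ∈ H, p e' ⊆ q e ∧ p e' ⊆ b)
    -- the second neighbourhood is small
    have hM : ∀ e ∈ H, (M e).card ≤ (m - 1) * 2 ^ (j + 1) := by
      intro e he
      let cand : Finset ι := H.filter (fun e' => p e' ⊆ q e)
      let fam : Finset (Finset ι) := cand.powerset.filter
        (fun A => ∀ b ∈ M e, ∃ e' ∈ A, p e' ⊆ b)
      have hfam : fam.Nonempty := by
        refine ⟨cand, mem_filter.2 ⟨mem_powerset.2 (Subset.refl _), ?_⟩⟩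
        intro b hb
        obtain ⟨-, e', he', h1, h2⟩ := mem_filter.1 hb
        exact ⟨e', mem_filter.2 ⟨he', h1⟩, h2⟩
      obtain ⟨A, hA, hmin⟩ := fam.exists_min_image Finset.card hfam
      obtain ⟨hA1, hA2⟩ := mem_filter.1 hA
      have hAc : A ⊆ cand := mem_powerset.1 hA1
      have hpriv : ∀ e' ∈ A, ∃ b ∈ M e, p e' ⊆ b ∧ ∀ e'' ∈ A, e'' ≠ e' → ¬ p e'' ⊆ b := by
        intro e' he'
        by_contra hno
        push Not at hno
        have h1 : A.erase e' ∈ fam := by
          refine mem_filter.2 ⟨mem_powerset.2 ((erase_subset _ _).trans hAc), ?_⟩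
          intro b hb
          obtain ⟨e₁, he₁, h₁⟩ := hA2 b hb
          by_cases h : e₁ = e'
          · subst h
            obtain ⟨e₂, he₂, hne₂, h₂⟩ := hno b hb h₁
            exact ⟨e₂, mem_erase.2 ⟨hne₂, he₂⟩, h₂⟩
          · exact ⟨e₁, mem_erase.2 ⟨h, he₁⟩, h₁⟩
        have h2 := hmin _ h1
        have h3 := card_erase_lt_of_mem he'
        omega
      have hAm : A.card ≤ m - 1 := by
        by_contra hlt
        push Not at hlt
        apply hfree
        obtain ⟨A', hA', hA'c⟩ := Finset.exists_subset_card_eq (show m ≤ A.card by omega)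
        let eqv : Fin m ≃ A' := (Fintype.equivFinOfCardEq (by simpa using hA'c)).symm
        choose! pb hpb1 hpb2 hpb3 using hpriv
        have hmem : ∀ i : Fin m, (eqv i : ι) ∈ A := fun i => hA' (eqv i).2
        have hsub : ∀ i : Fin m, p (eqv i : ι) ⊆ q e := fun i =>
          (mem_filter.1 (hAc (hmem i))).2
        have hHm : ∀ i : Fin m, (eqv i : ι) ∈ F := fun i =>
          hHF (mem_filter.1 (hAc (hmem i))).1
        have hinj : ∀ i j : Fin m, i ≠ j → (eqv i : ι) ≠ (eqv j : ι) := by
          intro i j hij h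
          exact hij (eqv.injective (Subtype.ext h))
        refine Spider.exists_copy c hxy (fun i => p (eqv i)) (fun i => pb (eqv i)) (q e)
          (fun i => (hF _ (hHm i)).1)
          (fun i => (hBy _ (mem_filter.1 (hpb1 _ (hmem i))).1).2) (hF e (hHF he)).2.1
          (fun i => (hF _ (hHm i)).2.2.2.1)
          (fun i => (hBy _ (mem_filter.1 (hpb1 _ (hmem i))).1).1) (hF e (hHF he)).2.2.2.2
          (fun i => hpb2 _ (hmem i)) hsub
          (fun i j hij => hpb3 _ (hmem j) _ (hmem i) (hinj i j hij)) ?_
        intro i heq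
        obtain ⟨i', hi'⟩ : ∃ i' : Fin m, i' ≠ i := by
          haveI : Nontrivial (Fin m) := Fin.nontrivial_iff_two_le.2 hm
          exact exists_ne i
        apply hpb3 _ (hmem i) _ (hmem i') (hinj i' i hi')
        rw [heq]
        exact hsub i'
      have hcov : M e ⊆ A.biUnion Nb := by
        intro b hb
        obtain ⟨e', he', h1⟩ := hA2 b hb
        exact mem_biUnion.2 ⟨e', he', mem_filter.2 ⟨(mem_filter.1 hb).1, h1⟩⟩
      calc (M e).card ≤ (A.biUnion Nb).card := card_le_card hcov
        _ ≤ ∑ e' ∈ A, (Nb e').card := card_biUnion_le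
        _ ≤ ∑ e' ∈ A, 2 ^ (j + 1) := Finset.sum_le_sum (fun e' he' =>
            hhigh e' (hHF' (mem_filter.1 (hAc he')).1))
        _ = A.card * 2 ^ (j + 1) := by simp
        _ ≤ (m - 1) * 2 ^ (j + 1) := Nat.mul_le_mul_right _ hAm
    -- averaging
    let K1 : Finset (Fin N) → Finset ι := fun b => H.filter (fun e => p e ⊆ b)
    let D1 : Finset (Fin N) → Finset ι := fun b =>
      H.filter (fun e => ∃ e' ∈ H, p e' ⊆ q e ∧ p e' ⊆ b)
    have hsum1 : ∑ b ∈ B, (K1 b).card = ∑ e ∈ H, (Nb e).card := by
      have := Finset.sum_card_bipartiteAbove_eq_sum_card_bipartiteBelow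
        (s := H) (t := B) (fun e b => p e ⊆ b)
      simpa [Finset.bipartiteAbove, Finset.bipartiteBelow, K1, Nb] using this.symm
    have hsum2 : ∑ b ∈ B, (D1 b).card = ∑ e ∈ H, (M e).card := by
      have := Finset.sum_card_bipartiteAbove_eq_sum_card_bipartiteBelow
        (s := H) (t := B) (fun e b => ∃ e' ∈ H, p e' ⊆ q e ∧ p e' ⊆ b)
      simpa [Finset.bipartiteAbove, Finset.bipartiteBelow, D1, M] using this.symm
    have hex : ∃ b ∈ B, (K1 b).Nonempty ∧ (D1 b).card ≤ 2 * (m - 1) * (K1 b).card := by
      by_contra hno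
      push Not at hno
      obtain ⟨e₀, he₀⟩ := hne
      have hlt : ∑ b ∈ B, 2 * (m - 1) * (K1 b).card < ∑ b ∈ B, (D1 b).card := by
        apply Finset.sum_lt_sum
        · intro b hb
          rcases Finset.eq_empty_or_nonempty (K1 b) with h | h
          · rw [h]; simp
          · exact (hno b hb h).le
        · refine ⟨q e₀, mem_image_of_mem q (hHF he₀), hno _ (mem_image_of_mem q (hHF he₀)) ?_⟩
          exact ⟨e₀, mem_filter.2 ⟨he₀, (hF e₀ (hHF he₀)).2.2.1⟩⟩
      rw [← Finset.mul_sum, hsum1, hsum2] at hlt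
      have h1 : ∑ e ∈ H, (M e).card ≤ ∑ e ∈ H, (m - 1) * 2 ^ (j + 1) :=
        Finset.sum_le_sum hM
      have h2 : ∑ e ∈ H, 2 ^ j ≤ ∑ e ∈ H, (Nb e).card :=
        Finset.sum_le_sum (fun e he => hlow e (hHF' he))
      have h3 : ∑ e ∈ H, (m - 1) * 2 ^ (j + 1) = 2 * (m - 1) * ∑ e ∈ H, 2 ^ j := by
        simp only [sum_const, smul_eq_mul]
        ring
      have h4 : 2 * (m - 1) * ∑ e ∈ H, 2 ^ j ≤ 2 * (m - 1) * ∑ e ∈ H, (Nb e).card :=
        Nat.mul_le_mul_left _ h2
      omega
    obtain ⟨b, hbB, hK1ne, hD1⟩ := hex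
    have hK1H : K1 b ⊆ H := filter_subset _ _
    have hD1H : D1 b ⊆ H := filter_subset _ _
    have hK1D1 : K1 b ⊆ D1 b := by
      intro e he
      obtain ⟨h1, h2⟩ := mem_filter.1 he
      exact mem_filter.2 ⟨h1, e, h1, (hF e (hHF h1)).2.2.1, h2⟩
    -- inside the cluster
    have htri : TriBound p q (K1 b) (2 ^ (m * (Nat.log 2 (N + 2) + 1))) := by
      intro l hl hlt
      refine lt_of_le_of_lt (tri_bound p q m l (fun e he => (hF e (hHF (hK1H (hl e he)))).2.2.1)
        hlt ?_) (fb_lt_two_pow N m)
      intro l' hl' hmat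
      by_contra hge
      push Not at hge
      apply hfree
      have hpair : ∀ i j : ℕ, ∀ (hi : i < l'.length) (hj : j < l'.length), i ≠ j →
          ¬ p l'[i] ⊆ q l'[j] := by
        intro i j hi hj hij
        rcases Nat.lt_or_gt_of_ne hij with h | h
        · exact (List.pairwise_iff_getElem.1 hmat i j hi hj h).1
        · exact (List.pairwise_iff_getElem.1 hmat j i hj hi h).2
      have hmemK : ∀ i : ℕ, ∀ (hi : i < l'.length), l'[i] ∈ K1 b := fun i hi =>
        hl _ (hl'.subset (List.getElem_mem hi))
      have hlen : ∀ i : Fin m, (i : ℕ) < l'.length := fun i => by omega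
      refine Spider.exists_copy c hxy (fun i : Fin m => p (l'[(i : ℕ)]'(hlen i)))
        (fun i : Fin m => q (l'[(i : ℕ)]'(hlen i))) b
        (fun i => (hF _ (hHF (hK1H (hmemK _ (hlen i))))).1)
        (fun i => (hF _ (hHF (hK1H (hmemK _ (hlen i))))).2.1) (hBy b hbB).2
        (fun i => (hF _ (hHF (hK1H (hmemK _ (hlen i))))).2.2.2.1)
        (fun i => (hF _ (hHF (hK1H (hmemK _ (hlen i))))).2.2.2.2) (hBy b hbB).1
        (fun i => (hF _ (hHF (hK1H (hmemK _ (hlen i))))).2.2.1)
        (fun i => (mem_filter.1 (hmemK _ (hlen i))).2)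
        (fun i j hij => hpair _ _ (hlen i) (hlen j) (fun h => hij (Fin.ext h))) ?_
      intro i heq
      obtain ⟨i', hi'⟩ : ∃ i' : Fin m, i' ≠ i := by
        haveI : Nontrivial (Fin m) := Fin.nontrivial_iff_two_le.2 hm
        exact exists_ne i
      apply hpair _ _ (hlen i') (hlen i) (fun h => hi' (Fin.ext h))
      rw [heq]
      exact (mem_filter.1 (hmemK _ (hlen i'))).2
    obtain ⟨G1, hG1, hG1c, hG1all⟩ := halving p q (m * (Nat.log 2 (N + 2) + 1)) (K1 b)
      (fun e he => (hF e (hHF (hK1H he))).2.2.1) hN htri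
    -- the rest
    have hssub : H \ D1 b ⊂ H := by
      refine ⟨sdiff_subset, fun h => ?_⟩
      obtain ⟨e, he⟩ := hK1ne
      exact (mem_sdiff.1 (h (hK1H he))).2 (hK1D1 he)
    obtain ⟨G2, hG2, hG2c, hG2tr⟩ := ih (H \ D1 b) hssub (sdiff_subset.trans hHF')
    have hG1H : G1 ⊆ H := hG1.trans hK1H
    have hG2H : G2 ⊆ H := hG2.trans sdiff_subset
    have hunrel : ∀ a ∈ G1, ∀ d ∈ G2, ¬ p a ⊆ q d := by
      intro a ha d hd hsub
      have h1 := mem_sdiff.1 (hG2 hd)
      exact h1.2 (mem_filter.2 ⟨h1.1, a, hG1H ha, hsub, (mem_filter.1 (hG1 ha)).2⟩)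
    have hdisj : Disjoint G1 G2 := by
      rw [Finset.disjoint_left]
      intro a ha1 ha2
      exact hunrel a ha1 a ha2 (hF a (hHF (hG1H ha1))).2.2.1
    refine ⟨G1 ∪ G2, union_subset hG1H hG2H, ?_, ?_⟩
    · rw [card_union_of_disjoint hdisj]
      have hsum : (H \ D1 b).card + (D1 b).card = H.card := card_sdiff_add_card_eq_card hD1H
      have h1 : (D1 b).card ≤ Kc N m * G1.card := by
        calc (D1 b).card ≤ 2 * (m - 1) * (K1 b).card := hD1
          _ ≤ 2 * m * (K1 b).card := Nat.mul_le_mul_right _ (by omega)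
          _ ≤ 2 * m * (2 * (4 * N) ^ (m * (Nat.log 2 (N + 2) + 1)) * G1.card) :=
            Nat.mul_le_mul_left _ hG1c
          _ = Kc N m * G1.card := by unfold Kc; ring
      calc H.card = (H \ D1 b).card + (D1 b).card := hsum.symm
        _ ≤ Kc N m * G2.card + Kc N m * G1.card := Nat.add_le_add hG2c h1
        _ = Kc N m * (G1.card + G2.card) := by ring
    · intro a ha b' hb' d hd hab hbd
      rcases mem_union.1 ha with ha | ha <;> rcases mem_union.1 hb' with hb' | hb' <;>
        rcases mem_union.1 hd with hd | hd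
      · exact ⟨hG1all a ha d hd, hG1all d hd a ha⟩
      · exact absurd hbd.1 (hunrel b' hb' d hd)
      · exact absurd hab.1 (hunrel a ha b' hb')
      · exact absurd hab.1 (hunrel a ha b' hb')
      · exact absurd hab.2 (hunrel b' hb' a ha)
      · exact absurd hab.2 (hunrel b' hb' a ha)
      · exact absurd hbd.2 (hunrel d hd b' hb')
      · exact hG2tr a ha b' hb' d hd hab hbd
  obtain ⟨G, hG, hGc, hGtr⟩ := main F' (Subset.refl _)
  refine ⟨G, hG.trans hF'F, ?_, hGtr⟩
  calc F.card ≤ (range (N + 1)).card * F'.card := hFj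
    _ = (N + 1) * F'.card := by rw [card_range]
    _ ≤ (N + 1) * (Kc N m * G.card) := Nat.mul_le_mul_left _ hGc
    _ = (N + 1) * Kc N m * G.card := by ring

end Pool.Agent.Helper884_ChainCount
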